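import Pool.Agent.H32.CH.Targets

/-!
# Module COR of the board ch_modules (MP_aaa807_co)
-/

set_option autoImplicit false

namespace Pool.Agent.H5.CH.COR

open Finset
open scoped Classical
open Pool.Agent.H32.CH

/-- the dropped indices -/
def Dr (n k : ℕ) (P : ℕ → ℕ) (O : ℕ → Prop) (i : ℕ) : Prop :=
  O i ∧ ((i = 0 ∧ P 0 + n = P (k - 1) + 1) ∨ (0 < i ∧ P i = P (i - 1) + 1) ∨
    (i + 1 < k ∧ P (i + 1) = P i + 1) ∨ (i + 1 = k ∧ P 0 + n = P (k - 1) + 1))

theorem pf_COR : T_COR := by
  intro n k P O hk hPn hgap hwrap hO hO2 hone hone2 hskip hskip0 hskipk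
  have hmono : ∀ i j, i < j → j < k → P i < P j := by
    intro i j hij
    induction j with
    | zero => omega
    | succ j ih =>
      intro hj
      have h1 := (hgap j hj).1
      rcases Nat.lt_succ_iff_lt_or_eq.1 hij with h2 | h2
      · have h3 := ih h2 (by omega)
        omega
      · subst h2; exact h1
  have hmem : ∀ j, j < k → ¬ Dr n k P O j → P j ∈ ((range k).filter (fun i => ¬ Dr n k P O i)).image P := by
    intro j hj hd
    exact mem_image.2 ⟨j, mem_filter.2 ⟨mem_range.2 hj, hd⟩, rfl⟩
  refine ⟨((range k).filter (fun i => ¬ Dr n k P O i)).image P, ?_, ?_, ?_, ?_⟩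
  · exact image_subset_image (filter_subset _ _)
  · intro x hx
    obtain ⟨i, hi, rfl⟩ := mem_image.1 hx
    exact mem_range.2 (hPn i (mem_range.1 (mem_filter.1 hi).1))
  · intro x hx hx2
    obtain ⟨i, hi, rfl⟩ := mem_image.1 hx
    obtain ⟨j, hj, hij⟩ := mem_image.1 hx2
    obtain ⟨hi1, hi2⟩ := mem_filter.1 hi
    obtain ⟨hj1, hj2⟩ := mem_filter.1 hj
    rw [mem_range] at hi1 hj1
    have hPi := hPn i hi1
    by_cases hlt : P i + 1 < n
    · rw [Nat.mod_eq_of_lt hlt] at hij
      have h1 : i < j := by
        by_contra hc
        rcases Nat.lt_or_eq_of_le (not_lt.1 hc) with h2 | h2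
        · have := hmono j i h2 hi1
          omega
        · subst h2; omega
      have h2 : j = i + 1 := by
        by_contra hc
        have h3 := hmono (i + 1) j (by omega) hj1
        have h4 := (hgap i (by omega)).1
        omega
      subst h2
      rcases hone i hj1 hij with h3 | h3
      · exact hi2 ⟨h3, Or.inr (Or.inr (Or.inl ⟨hj1, hij⟩))⟩
      · exact hj2 ⟨h3, Or.inr (Or.inl ⟨by omega, by rw [Nat.add_sub_cancel]; exact hij⟩)⟩
    · have h1 : P i + 1 = n := by omega
      rw [h1, Nat.mod_self] at hij
      have h2 : j = 0 := by
        by_contra hc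
        have := hmono 0 j (by omega) hj1
        omega
      have h3 : i = k - 1 := by
        by_contra hc
        have h4 := hmono i (k - 1) (by omega) (by omega)
        have h5 := hPn (k - 1) (by omega)
        omega
      subst h2
      have h4 : P 0 + n = P (k - 1) + 1 := by
        rw [← h3]; omega
      rcases hone2 h4 with h5 | h5
      · exact hi2 ⟨by rw [h3]; exact h5, Or.inr (Or.inr (Or.inr ⟨by omega, h4⟩))⟩
      · exact hj2 ⟨h5, Or.inl ⟨rfl, h4⟩⟩
  · intro a ha
    have hk1 := hPn (k - 1) (by omega)
    by_cases hex : ∃ i, i < k ∧ a ≤ P i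
    · obtain ⟨hi, hai⟩ := Nat.find_spec hex
      have hmin : ∀ m, m < Nat.find hex → ¬ (m < k ∧ a ≤ P m) := fun m hm => Nat.find_min hex hm
      generalize Nat.find hex = i at hi hai hmin
      have hPi := hPn i hi
      -- the previous point lies before `a`
      have hle : P i ≤ a + 5 := by
        rcases Nat.eq_zero_or_pos i with h0 | h0
        · subst h0; omega
        · have h1 := hmin (i - 1) (by omega)
          have h2 := (hgap (i - 1) (by omega)).2
          rw [Nat.sub_add_cancel h0] at h2
          have h3 : ¬ a ≤ P (i - 1) := fun e => h1 ⟨by omega, e⟩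
          omega
      by_cases hd : Dr n k P O i
      · obtain ⟨hOi, hcase⟩ := hd
        by_cases hik : i + 1 < k
        · have hno : ¬ Dr n k P O (i + 1) := fun e => hO i hik hOi e.1
          have hle2 : P (i + 1) ≤ a + 5 := by
            rcases Nat.eq_zero_or_pos i with h0 | h0
            · subst h0
              have h1 : P 1 + n ≤ P (k - 1) + 6 := by
                apply hskip0 hOi
                rcases hcase with h | h | h | h
                · exact Or.inl h.2
                · omega
                · exact Or.inr h.2
                · exact Or.inl h.2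
              have : P (0 + 1) = P 1 := rfl
              omega
            · have h1 := hmin (i - 1) (by omega)
              have h3 : ¬ a ≤ P (i - 1) := fun e => h1 ⟨by omega, e⟩
              obtain ⟨m, rfl⟩ : ∃ m, i = m + 1 := ⟨i - 1, by omega⟩
              rw [Nat.add_sub_cancel] at h3 hcase
              have h4 : P (m + 2) ≤ P m + 6 := by
                apply hskip m hik hOi
                rcases hcase with h | h | h | h
                · omega
                · exact Or.inl h.2
                · exact Or.inr h.2
                · omega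
              have : P (m + 1 + 1) = P (m + 2) := rfl
              omega
          have hlt := (hgap i hik).1
          refine ⟨P (i + 1) - a, by omega, ?_⟩
          have h5 : a + (P (i + 1) - a) = P (i + 1) := by omega
          rw [h5, Nat.mod_eq_of_lt (hPn _ hik)]
          exact hmem _ hik hno
        · have hik' : i = k - 1 := by omega
          have hno : ¬ Dr n k P O 0 := fun e => hO2 ⟨by rw [← hik']; exact hOi, e.1⟩
          have h1 := hmin (i - 1) (by omega)
          have h3 : ¬ a ≤ P (i - 1) := fun e => h1 ⟨by omega, e⟩
          have h4 : P 0 + n ≤ P (k - 2) + 6 := by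
            apply hskipk (by rw [← hik']; exact hOi)
            rcases hcase with h | h | h | h
            · omega
            · left
              have h5 := h.2
              rw [hik'] at h5
              have h6 : k - 1 - 1 = k - 2 := by omega
              rwa [h6] at h5
            · omega
            · exact Or.inr h.2
          have h5 : i - 1 = k - 2 := by omega
          rw [h5] at h3
          refine ⟨P 0 + n - a, by omega, ?_⟩
          have h6 : a + (P 0 + n - a) = P 0 + n := by omega
          rw [h6, Nat.add_mod_right, Nat.mod_eq_of_lt (hPn 0 (by omega))]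
          exact hmem 0 (by omega) hno
      · refine ⟨P i - a, by omega, ?_⟩
        have h5 : a + (P i - a) = P i := by omega
        rw [h5, Nat.mod_eq_of_lt hPi]
        exact hmem i hi hd
    · have hlast : P (k - 1) < a := by
        by_contra hc
        exact hex ⟨k - 1, by omega, not_lt.1 hc⟩
      by_cases hd : Dr n k P O 0
      · obtain ⟨hO0, hcase⟩ := hd
        have hno : ¬ Dr n k P O 1 := fun e => hO 0 (by omega) hO0 e.1
        have h1 : P 1 + n ≤ P (k - 1) + 6 := by
          apply hskip0 hO0
          rcases hcase with h | h | h | h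
          · exact Or.inl h.2
          · omega
          · exact Or.inr h.2
          · exact Or.inl h.2
        refine ⟨P 1 + n - a, by omega, ?_⟩
        have h6 : a + (P 1 + n - a) = P 1 + n := by omega
        rw [h6, Nat.add_mod_right, Nat.mod_eq_of_lt (hPn 1 (by omega))]
        exact hmem 1 (by omega) hno
      · refine ⟨P 0 + n - a, by omega, ?_⟩
        have h6 : a + (P 0 + n - a) = P 0 + n := by omega
        rw [h6, Nat.add_mod_right, Nat.mod_eq_of_lt (hPn 0 (by omega))]
        exact hmem 0 (by omega) hd

end Pool.Agent.H5.CH.COR
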