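import Pool.Agent.H32.CH.Targets

/-!
# Module GT of the board ch_modules (MP_aaa807_co)
-/

set_option autoImplicit false

namespace Pool.Agent.H5.CH.GT

open Finset
open scoped Classical
open Pool.Agent.H32.CH

/-- the pairing -/
def prf : Fin 10 → Fin 5 := ![0, 2, 4, 3, 3, 1, 1, 2, 4, 0]

theorem prf_card (c : Fin 5) : (univ.filter (fun j : Fin 10 => prf j = c)).card = 2 := by
  revert c
  decide

/-- the relation between the positions -/
def Rl (j k : Fin 10) : Prop :=
  (k : ℕ) = j + 1 ∨ (k : ℕ) = j + 5 ∨ (k : ℕ) = j + 6 ∨ (k : ℕ) = j + 7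

theorem pick (fr : Fin 10 → Prop)
    (h : ∀ j k : Fin 10, j ≠ k → prf j = prf k → fr j ∨ fr k) :
    ∃ t : Fin 3 → Fin 10, Function.Injective t ∧ (∀ a, fr (t a)) ∧
      (Rl (t 0) (t 1) ∨ Rl (t 1) (t 0)) ∧ (Rl (t 0) (t 2) ∨ Rl (t 2) (t 0)) := by
  have key : ∀ a b c : Fin 10, fr a → fr b → fr c → Function.Injective ![a, b, c] →
      (Rl a b ∨ Rl b a) → (Rl a c ∨ Rl c a) →
      ∃ t : Fin 3 → Fin 10, Function.Injective t ∧ (∀ a, fr (t a)) ∧
      (Rl (t 0) (t 1) ∨ Rl (t 1) (t 0)) ∧ (Rl (t 0) (t 2) ∨ Rl (t 2) (t 0)) := by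
    intro a b c ha hb hc hinj h1 h2
    refine ⟨![a, b, c], hinj, ?_, h1, h2⟩
    intro i
    fin_cases i
    · exact ha
    · exact hb
    · exact hc
  have h09 := h 0 9 (by decide) (by decide)
  have h56 := h 5 6 (by decide) (by decide)
  have h17 := h 1 7 (by decide) (by decide)
  have h34 := h 3 4 (by decide) (by decide)
  have h28 := h 2 8 (by decide) (by decide)
  have hr : ∀ j k : Fin 10, Rl j k ↔
      ((k : ℕ) = j + 1 ∨ (k : ℕ) = j + 5 ∨ (k : ℕ) = j + 6 ∨ (k : ℕ) = j + 7) := fun j k => Iff.rfl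
  rcases h09 with h0 | h9
  · rcases h56 with h5 | h5 <;> rcases h17 with h1 | h1
    · exact key 0 5 1 h0 h5 h1 (by decide) (by rw [hr, hr]; decide) (by rw [hr, hr]; decide)
    · exact key 0 5 7 h0 h5 h1 (by decide) (by rw [hr, hr]; decide) (by rw [hr, hr]; decide)
    · exact key 0 6 1 h0 h5 h1 (by decide) (by rw [hr, hr]; decide) (by rw [hr, hr]; decide)
    · exact key 0 6 7 h0 h5 h1 (by decide) (by rw [hr, hr]; decide) (by rw [hr, hr]; decide)
  · rcases h34 with h5 | h5 <;> rcases h28 with h1 | h1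
    · exact key 9 3 2 h9 h5 h1 (by decide) (by rw [hr, hr]; decide) (by rw [hr, hr]; decide)
    · exact key 9 3 8 h9 h5 h1 (by decide) (by rw [hr, hr]; decide) (by rw [hr, hr]; decide)
    · exact key 9 4 2 h9 h5 h1 (by decide) (by rw [hr, hr]; decide) (by rw [hr, hr]; decide)
    · exact key 9 4 8 h9 h5 h1 (by decide) (by rw [hr, hr]; decide) (by rw [hr, hr]; decide)

theorem dg_le {V : Type} [Fintype V] {F D : SimpleGraph V} (h : F ≤ D) (X : Finset V) (v : V) :
    dg F X v ≤ dg D X v := by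
  apply card_le_card
  intro y hy
  rw [mem_nb] at hy ⊢
  exact ⟨hy.1, h hy.2⟩

theorem pf_GT (h1 : T_MAT) (h2 : T_SEQ) : T_GT := by
  intro V ι _ _ D T s hD hT hN hs hsT
  set N : Finset V := Tᶜ with hNdef
  let κ : V → (ι × Fin 5) ⊕ V := fun x =>
    if h : ∃ p, s p = x then Sum.inl (h.choose.1, prf h.choose.2) else Sum.inr x
  have hκs : ∀ p : ι × Fin 10, κ (s p) = Sum.inl (p.1, prf p.2) := by
    intro p
    have h : ∃ p', s p' = s p := ⟨p, rfl⟩
    have h3 : κ (s p) = Sum.inl (h.choose.1, prf h.choose.2) := dif_pos h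
    have h4 : h.choose = p := hs h.choose_spec
    rw [h3, h4]
  have hκn : ∀ x, (¬ ∃ p, s p = x) → κ x = Sum.inr x := fun x hx => dif_neg hx
  have hcard : ∀ k : (ι × Fin 5) ⊕ V, (@Finset.filter V (fun x => κ x = k)
      (fun x => Classical.propDecidable (κ x = k)) N).card ≤ 2 := by
    rintro (⟨i, c⟩ | v)
    · refine le_trans (card_le_card
        (t := (univ.filter (fun j : Fin 10 => prf j = c)).image (fun j => s (i, j))) ?_) ?_
      · intro x hx
        have hx2 := (@Finset.mem_filter V _ (fun _ => Classical.propDecidable _) N x).1 hx |>.2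
        by_cases hp : ∃ p, s p = x
        · obtain ⟨⟨i', j⟩, rfl⟩ := hp
          rw [hκs] at hx2
          have h3 := Sum.inl_injective hx2
          have h4 : i' = i := congrArg Prod.fst h3
          have h5 : prf j = c := congrArg Prod.snd h3
          subst h4
          exact mem_image.2 ⟨j, mem_filter.2 ⟨mem_univ _, h5⟩, rfl⟩
        · rw [hκn x hp] at hx2
          cases hx2
      · exact card_image_le.trans (prf_card c).le
    · refine le_trans (card_le_card (t := {v}) ?_) ?_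
      · intro x hx
        have hx2 := (@Finset.mem_filter V _ (fun _ => Classical.propDecidable _) N x).1 hx |>.2
        by_cases hp : ∃ p, s p = x
        · obtain ⟨p, rfl⟩ := hp
          rw [hκs] at hx2
          cases hx2
        · rw [hκn x hp] at hx2
          rw [mem_singleton]
          exact Sum.inr_injective hx2
      · simp
  obtain ⟨M, hMD, hMN, hMm, hMmax, hMκ⟩ := h1 V ((ι × Fin 5) ⊕ V) D N κ
    (fun v _ => (dg_mono (subset_univ N) v).trans (hD v)) hcard
  have hF0le : D \ M ≤ D := sdiff_le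
  have hF0 : ∀ x y, (D \ M).Adj x y ↔ D.Adj x y ∧ ¬ M.Adj x y := fun x y => by
    rw [SimpleGraph.sdiff_adj]
  have hF0dg : ∀ v, dg (D \ M) univ v ≤ 2 := fun v => (dg_le hF0le univ v).trans (hD v)
  -- a covered vertex is free
  have hcov : ∀ x z, M.Adj x z → dg (D \ M) univ x ≤ 1 := by
    intro x z hxz
    have h3 : nb (D \ M) univ x ⊆ (nb D univ x).erase z := by
      intro y hy
      rw [mem_nb, hF0] at hy
      rw [mem_erase, mem_nb]
      refine ⟨?_, mem_univ _, hy.2.1⟩
      rintro rfl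
      exact hy.2.2 hxz
    have h4 : z ∈ nb D univ x := mem_nb.2 ⟨mem_univ _, hMD hxz⟩
    have h5 := card_le_card h3
    rw [card_erase_of_mem h4] at h5
    have h6 : (nb D univ x).card ≤ 2 := hD x
    have h7 : dg (D \ M) univ x = (nb (D \ M) univ x).card := rfl
    omega
  have hPeel : Peel (D \ M) := by
    intro X hX
    by_contra hc
    push Not at hc
    have hX2 : ∀ v ∈ X, dg (D \ M) X v = 2 := by
      intro v hv
      have h3 := hc v hv
      have h4 := (dg_mono (G := D \ M) (subset_univ X) v).trans (hF0dg v)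
      omega
    have hunc : ∀ v ∈ X, ∀ z, ¬ M.Adj v z := by
      intro v hv z hvz
      have h3 := hcov v z hvz
      have h4 := dg_mono (G := D \ M) (subset_univ X) v
      have h5 := hX2 v hv
      omega
    have hnbX : ∀ v ∈ X, nb (D \ M) X v = nb D univ v := by
      intro v hv
      apply eq_of_subset_of_card_le
      · intro y hy
        rw [mem_nb, hF0] at hy
        exact mem_nb.2 ⟨mem_univ _, hy.2.1⟩
      · have h3 : (nb (D \ M) X v).card = 2 := hX2 v hv
        rw [h3]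
        exact hD v
    have hnT : ∃ x ∈ X, x ∉ T := by
      by_contra hcT
      push Not at hcT
      obtain ⟨v, hv⟩ := hX
      have h3 := hT v (hcT v hv)
      have h4 : dg (D \ M) X v ≤ dg D T v :=
        (dg_le hF0le X v).trans (dg_mono (fun y hy => hcT y hy) v)
      have h5 := hX2 v hv
      omega
    obtain ⟨x, hx, hxT⟩ := hnT
    have hdx : dg D univ x = 2 := by
      have h3 : (nb (D \ M) X x).card = 2 := hX2 x hx
      rw [hnbX x hx] at h3
      exact h3
    obtain ⟨y, hy, hxy⟩ := dg_pos.1 (Nat.pos_of_ne_zero (hN x hxT hdx))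
    have hyX : y ∈ X := by
      have h3 : y ∈ nb D univ x := mem_nb.2 ⟨mem_univ _, hxy⟩
      rw [← hnbX x hx] at h3
      exact (mem_nb.1 h3).1
    rcases hMmax x (mem_compl.2 hxT) y hy hxy with ⟨z, hz⟩ | ⟨z, hz⟩
    · exact hunc x hx z hz
    · exact hunc y hyX z hz
  -- availability
  have hav : ∀ x, x ∉ T → ¬ dg (D \ M) univ x ≤ 1 →
      (∀ z, ¬ M.Adj x z) ∧ dg D N x ≠ 0 := by
    intro x hxT hx
    refine ⟨fun z hz => hx (hcov x z hz), ?_⟩
    apply hN x hxT
    have h3 := dg_le hF0le univ x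
    have h4 := hD x
    omega
  have hch : ∀ i : ι, ∃ t : Fin 3 → Fin 10, Function.Injective t ∧
      (∀ a, dg (D \ M) univ (s (i, t a)) ≤ 1) ∧
      (Rl (t 0) (t 1) ∨ Rl (t 1) (t 0)) ∧ (Rl (t 0) (t 2) ∨ Rl (t 2) (t 0)) := by
    intro i
    apply pick (fun j => dg (D \ M) univ (s (i, j)) ≤ 1)
    intro j k hjk hpr
    by_contra hc
    rw [not_or] at hc
    obtain ⟨hj1, hj2⟩ := hav (s (i, j)) (hsT _) hc.1
    obtain ⟨hk1, hk2⟩ := hav (s (i, k)) (hsT _) hc.2
    have h3 := hMκ (s (i, j)) (mem_compl.2 (hsT _)) (s (i, k)) (mem_compl.2 (hsT _)) hj1 hk1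
      hj2 hk2 (by rw [hκs, hκs]; exact congrArg Sum.inl (Prod.ext rfl hpr))
    exact hjk (congrArg Prod.snd (hs h3))
  choose t ht1 ht2 ht3 ht4 using hch
  let g : ι × Fin 3 → V := fun x => s (x.1, t x.1 x.2)
  have hg : Function.Injective g := by
    rintro ⟨i, a⟩ ⟨i', a'⟩ h3
    have h4 := hs h3
    have h5 : i = i' := congrArg Prod.fst h4
    subst h5
    have h6 : t i a = t i a' := congrArg Prod.snd h4
    rw [ht1 i h6]
  obtain ⟨F', hF1, hF2, hF3, hF4⟩ := h2 V ι (D \ M) g hF0dg hPeel hg (fun x => ht2 x.1 x.2)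
  refine ⟨M, F', hMD, ?_, ?_, hMm, hF2, hF3, ?_⟩
  · intro x y hxy
    rw [SimpleGraph.sup_adj]
    by_cases hM : M.Adj x y
    · exact Or.inr hM
    · exact Or.inl (hF1 ((hF0 x y).2 ⟨hxy, hM⟩))
  · intro x y hxy
    obtain ⟨h3, h4⟩ := hMN x y hxy
    exact ⟨mem_compl.1 h3, mem_compl.1 h4⟩
  · intro i
    rcases hF4 i with h3 | h3
    · rcases ht3 i with h4 | h4
      · exact ⟨t i 0, t i 1, h4, h3⟩
      · exact ⟨t i 1, t i 0, h4, h3.symm⟩
    · rcases ht4 i with h4 | h4
      · exact ⟨t i 0, t i 2, h4, h3⟩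
      · exact ⟨t i 2, t i 0, h4, h3.symm⟩

end Pool.Agent.H5.CH.GT
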