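import Pool.Agent.H32.CH.Targets

/-!
# Module U of the board ch_modules (MP_aaa807_co)
-/

set_option autoImplicit false

namespace Pool.Agent.H5.CH.U

open Finset
open scoped Classical
open Pool.Agent.H32.CH

variable {V : Type} [Fintype V] {G : SimpleGraph V}

theorem fin {B : Finset V} (h1 : T_M1) (h2 : T_M2) (hD : Deg4 G) (hB : MinC G B) {h w : V}
    (hh : h ∉ B) (hw : w ∈ B) (hdw : dg G B w = 2) (hhw : G.Adj h w)
    (hdh : 2 ≤ dg G Bᶜ h) : False := by
  have h3 := (h1 V G B hD hB).2 h hh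
  have h4 : dg G Bᶜ h = 2 := le_antisymm h3 hdh
  have h5 := ((h2 V G B hD hB).2 h hh h4).2
  have h6 := (h1 V G (insert h B) hD h5).1 w (mem_insert_of_mem hw)
  rw [dg_insert_adj hh hhw.symm, hdw] at h6
  omega

theorem pf_U (h1 : T_M1) (h2 : T_M2) : T_U := by
  intro V _ G A hD hTF hMin u w z b b' h huA hwA huw hnuw hdu hdw hz hb hb' hbb' hbz hbu hbw
    hh hhb hhu hhw hcase
  obtain ⟨hzA, hdz⟩ := hz
  have hzu : z ≠ u := by rintro rfl; omega
  have hzw : z ≠ w := by rintro rfl; omega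
  have hnuz : ¬ G.Adj u z := fun e => hTF b u z hbu e hbz.symm
  have hnwz : ¬ G.Adj w z := fun e => hTF b w z hbw e hbz.symm
  have hbz' : b ≠ z := by rintro rfl; exact hb hzA
  have hb'z : b' ≠ z := by rintro rfl; exact hb' hzA
  have hbu' : b ≠ u := by rintro rfl; exact hb huA
  have hbw' : b ≠ w := by rintro rfl; exact hb hwA
  -- step 1
  have hM1 : MinC G (A.erase z) := ((h2 V G A hD hMin).1 z hzA hdz).2
  have hb1 : b ∉ A.erase z := fun e => hb (mem_of_mem_erase e)
  -- step 2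
  have hM2 : MinC G (insert b (A.erase z)) := by
    have h3 : 2 ≤ dg G (A.erase z)ᶜ b := by
      refine dg_ge_two hb'z ?_ ?_ hbb' hbz
      · rw [mem_compl]; exact fun e => hb' (mem_of_mem_erase e)
      · rw [mem_compl]; exact notMem_erase z A
    have h4 := (h1 V G _ hD hM1).2 b hb1
    exact ((h2 V G _ hD hM1).2 b hb1 (le_antisymm h4 h3)).2
  -- step 3
  have hu2 : u ∈ insert b (A.erase z) :=
    mem_insert_of_mem (mem_erase.2 ⟨hzu.symm, huA⟩)
  have hdu2 : dg G (insert b (A.erase z)) u = 2 := by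
    rw [dg_insert_adj hb1 hbu.symm, dg_erase_not hnuz, hdu]
  have hdw2 : dg G (insert b (A.erase z)) w = 2 := by
    rw [dg_insert_adj hb1 hbw.symm, dg_erase_not hnwz, hdw]
  have hM3 : MinC G ((insert b (A.erase z)).erase u) := ((h2 V G _ hD hM2).1 u hu2 hdu2).2
  set A3 : Finset V := (insert b (A.erase z)).erase u with hA3
  have hdw3 : dg G A3 w = 2 := by
    rw [hA3, dg_erase_not (fun e => hnuw e.symm), hdw2]
  have hw3 : w ∈ A3 := by
    rw [hA3, mem_erase]
    exact ⟨huw.symm, mem_insert_of_mem (mem_erase.2 ⟨hzw.symm, hwA⟩)⟩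
  have hu3 : u ∉ A3 := by rw [hA3]; exact notMem_erase _ _
  have hz3 : z ∉ A3 := by
    rw [hA3, mem_erase, mem_insert]
    rintro ⟨-, e | e⟩
    · exact hbz' e.symm
    · exact notMem_erase z A e
  have hout : ∀ y, y ∉ A → y ≠ b → y ∉ A3 := by
    intro y hy hyb
    rw [hA3, mem_erase, mem_insert]
    rintro ⟨-, e | e⟩
    · exact hyb e
    · exact hy (mem_of_mem_erase e)
  have hh3 : h ∉ A3 := hout h hh hhb
  have case2 : G.Adj h z → False := by
    intro hhz
    exact fin h1 h2 hD hM3 hh3 hw3 hdw3 hhw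
      (dg_ge_two hzu (mem_compl.2 hz3) (mem_compl.2 hu3) hhz hhu)
  rcases hcase with hk | hhz | ⟨t, ⟨htA, hdt⟩, hht, htz, hntz⟩
  · obtain ⟨h', hh', hhh'⟩ := dg_pos.1 (Nat.pos_of_ne_zero hk.2)
    rw [mem_compl] at hh'
    have hh'b : h' ≠ b := by
      rintro rfl
      exact hTF h h' u hhh' hbu hhu.symm
    have hh'u : h' ≠ u := by rintro rfl; exact hh' huA
    exact fin h1 h2 hD hM3 hh3 hw3 hdw3 hhw
      (dg_ge_two hh'u (mem_compl.2 (hout h' hh' hh'b)) (mem_compl.2 hu3) hhh' hhu)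
  · exact case2 hhz
  · have htu : t ≠ u := by rintro rfl; omega
    have htw : t ≠ w := by rintro rfl; omega
    have hb't : b' ≠ t := by rintro rfl; exact hb' htA
    have hb'u : b' ≠ u := by rintro rfl; exact hb' huA
    have hb'w : b' ≠ w := by rintro rfl; exact hb' hwA
    have hntb : ¬ G.Adj t b := by
      intro htb
      have h5 : ({b', z, u, w, t} : Finset V) ⊆ nb G univ b := by
        intro y hy
        simp only [mem_insert, mem_singleton] at hy
        rcases hy with rfl | rfl | rfl | rfl | rfl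
        · exact mem_nb.2 ⟨mem_univ _, hbb'⟩
        · exact mem_nb.2 ⟨mem_univ _, hbz⟩
        · exact mem_nb.2 ⟨mem_univ _, hbu⟩
        · exact mem_nb.2 ⟨mem_univ _, hbw⟩
        · exact mem_nb.2 ⟨mem_univ _, htb.symm⟩
      have h6 := card_le_card h5
      have h7 : ({b', z, u, w, t} : Finset V).card = 5 := by
        rw [card_insert_of_notMem (by simp [hb'z, hb'u, hb'w, hb't]),
          card_insert_of_notMem (by simp [hzu, hzw, htz.symm]),
          card_insert_of_notMem (by simp [huw, htu.symm]),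
          card_pair htw.symm]
      have h8 : (nb G univ b).card ≤ 4 := hD b
      omega
    have hntu : ¬ G.Adj t u := fun e => hTF h t u hht e hhu.symm
    have hntw : ¬ G.Adj w t := fun e => hTF h w t hhw e hht.symm
    have hdt3 : dg G A3 t = 2 := by
      rw [hA3, dg_erase_not hntu, dg_insert_not hntb, dg_erase_not hntz, hdt]
    have ht3 : t ∈ A3 := by
      rw [hA3, mem_erase]
      exact ⟨htu, mem_insert_of_mem (mem_erase.2 ⟨htz, htA⟩)⟩
    have hM4 : MinC G (A3.erase t) := ((h2 V G _ hD hM3).1 t ht3 hdt3).2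
    refine fin h1 h2 hD hM4 (fun e => hh3 (mem_of_mem_erase e)) (mem_erase.2 ⟨htw.symm, hw3⟩)
      ?_ hhw (dg_ge_two htu ?_ ?_ hht hhu)
    · rw [dg_erase_not hntw, hdw3]
    · rw [mem_compl]; exact notMem_erase _ _
    · rw [mem_compl]; exact fun e => hu3 (mem_of_mem_erase e)

end Pool.Agent.H5.CH.U
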